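import Mathlib

/-!
For all large `N` at least `N / (100 log N)` of the integers `2 < n ≤ N` have a prime `p ≤ p_n`
such that `π(n + p)` is a square.
-/

set_option autoImplicit false

namespace Pool.Agent.Results.MP_8f7e98_nt.ManyIntegers

open Filter

/-- There is a prime `p ≤ p_n` such that `π(n + p)` is a square; `Nat.nth Nat.Prime (n - 1)` is the
`n`-th prime `p_n` (for `n ≥ 1`). -/
def Good (n : ℕ) : Prop :=
  ∃ p : ℕ, p.Prime ∧ p ≤ Nat.nth Nat.Prime (n - 1) ∧ IsSquare (Nat.primeCounting (n + p))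

/-- the deterministic part -/
lemma many {N t : ℕ} (ht : 2 ≤ t) (htN : t ^ 2 ≤ Nat.primeCounting N) :
    ∃ P : ℕ, P ≤ N ∧ Nat.primeCounting P = t ^ 2 ∧
      Nat.primeCounting (P / 2) ≤ {n : ℕ | 2 < n ∧ n ≤ N ∧ Good n}.ncard := by
  have h4 : 4 ≤ t ^ 2 := by nlinarith
  obtain ⟨P, hP⟩ : ∃ P, P = Nat.nth Nat.Prime (t ^ 2 - 1) := ⟨_, rfl⟩
  have hPp : P.Prime := by rw [hP]; exact Nat.prime_nth_prime _
  have hc : Nat.count Nat.Prime P = t ^ 2 - 1 := by
    rw [hP]
    exact Nat.primeCounting'_nth_eq _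
  have hpi : Nat.primeCounting P = t ^ 2 := by
    have h1 : Nat.primeCounting P = Nat.count Nat.Prime (P + 1) := rfl
    rw [h1, Nat.count_succ, hc, if_pos hPp]
    omega
  have hPN : P ≤ N := by
    have h1 : t ^ 2 - 1 < Nat.count Nat.Prime (N + 1) := by
      have h2 : Nat.primeCounting N = Nat.count Nat.Prime (N + 1) := rfl
      omega
    have h2 := Nat.nth_lt_of_lt_count h1
    omega
  have hP7 : 5 ≤ P := by
    have h1 := Nat.add_two_le_nth_prime (t ^ 2 - 1)
    omega
  refine ⟨P, hPN, hpi, ?_⟩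
  have hfin : {n : ℕ | 2 < n ∧ n ≤ N ∧ Good n}.Finite :=
    (Set.finite_Iic N).subset fun n hn => hn.2.1
  have hsub : (((Nat.primesLE (P / 2)).image fun q => P - q : Finset ℕ) : Set ℕ) ⊆
      {n : ℕ | 2 < n ∧ n ≤ N ∧ Good n} := by
    intro n hn
    simp only [Finset.coe_image, Set.mem_image, Finset.mem_coe, Nat.mem_primesLE] at hn
    obtain ⟨q, ⟨hq1, hq2⟩, rfl⟩ := hn
    refine ⟨by omega, by omega, q, hq2, ?_, t, ?_⟩
    · have h1 := Nat.add_two_le_nth_prime (P - q - 1)
      omega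
    · have h1 : P - q + q = P := by omega
      rw [h1, hpi, sq]
  have hcard := Set.ncard_le_ncard hsub hfin
  rw [Set.ncard_coe_finset, Finset.card_image_of_injOn, Nat.primesLE_card_eq_primeCounting] at hcard
  · exact hcard
  · intro a ha b hb hab
    simp only [Finset.mem_coe, Nat.mem_primesLE] at ha hb
    simp only at hab
    omega

theorem result : ∀ᶠ N : ℕ in atTop,
    (N : ℝ) / (100 * Real.log N) ≤ ({n : ℕ | 2 < n ∧ n ≤ N ∧ Good n}.ncard : ℝ) := by
  have hup := (Chebyshev.eventually_primeCounting_le (ε := 1 / 10) (by norm_num))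
  have hup' : ∀ᶠ x : ℝ in atTop, (Nat.primeCounting ⌊x / 16⌋₊ : ℝ) ≤
      (Real.log 4 + 1 / 10) * (x / 16) / Real.log (x / 16) :=
    (tendsto_id.atTop_div_const (by norm_num : (0 : ℝ) < 16)).eventually hup
  have hlog : ∀ᶠ x : ℝ in atTop, Real.log x ≤ x / 1000 := by
    have h := Real.isLittleO_log_id_atTop.bound (by norm_num : (0 : ℝ) < 1 / 1000)
    filter_upwards [h, eventually_ge_atTop (1 : ℝ)] with x hx hx1
    rw [Real.norm_of_nonneg (Real.log_nonneg hx1)] at hx
    simp only [id_eq] at hx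
    rw [Real.norm_of_nonneg (by linarith)] at hx
    linarith
  have hall := (hup'.and (hlog.and (eventually_ge_atTop (100000 : ℝ))))
  filter_upwards [tendsto_natCast_atTop_atTop.eventually hall] with N hN
  obtain ⟨h1, h2, h3⟩ := hN
  have hl2 := Real.log_two_gt_d9
  have hl2' := Real.log_two_lt_d9
  have hl4 : Real.log 4 = 2 * Real.log 2 := by
    rw [show (4 : ℝ) = 2 ^ 2 by norm_num, Real.log_pow]; norm_num
  obtain ⟨x, hx⟩ : ∃ x : ℝ, x = (N : ℝ) := ⟨_, rfl⟩
  rw [← hx] at h1 h2 h3 ⊢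
  have hx0 : 0 < x := by linarith
  have hlx : 1 < Real.log x := by
    rw [Real.lt_log_iff_exp_lt hx0]
    linarith [Real.exp_one_lt_d9]
  -- lower bound of `π(N)`
  have hlow : 3 / 5 * x / Real.log x ≤ (Nat.primeCounting N : ℝ) := by
    refine le_trans ?_ (Chebyshev.pi_ge N)
    rw [← hx]
    refine div_le_div_of_nonneg_right ?_ (by linarith)
    have h4 : Real.log (x + 1) ≤ 1 + x / 1000 := by
      have h5 : Real.log (x + 1) ≤ Real.log (2 * x) := Real.log_le_log (by linarith) (by linarith)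
      rw [Real.log_mul (by norm_num) hx0.ne'] at h5
      linarith
    nlinarith
  obtain ⟨m, hm⟩ : ∃ m, m = Nat.primeCounting N := ⟨_, rfl⟩
  obtain ⟨t, ht⟩ : ∃ t, t = Nat.sqrt m := ⟨_, rfl⟩
  have hm4 : (4 : ℝ) ≤ m := by
    rw [hm]
    refine le_trans ?_ hlow
    rw [le_div_iff₀ (by linarith)]
    nlinarith
  have hm4' : 4 ≤ m := by exact_mod_cast hm4
  have ht2 : 2 ≤ t := by
    rw [ht]
    exact Nat.le_sqrt.2 (by omega)
  have htm : t ^ 2 ≤ m := by
    rw [ht, sq]; exact Nat.sqrt_le m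
  have hmt : m < 4 * t ^ 2 := by
    have h4 : m < (t + 1) * (t + 1) := by
      rw [ht]; exact Nat.lt_succ_sqrt m
    nlinarith
  obtain ⟨P, hPN, hpi, hcount⟩ := many ht2 (by rw [← hm]; exact htm)
  -- `P ≥ N / 16`
  have hlog16 : 3 / 4 * Real.log x ≤ Real.log (x / 16) := by
    rw [Real.log_div hx0.ne' (by norm_num)]
    have h5 : Real.log 16 = 4 * Real.log 2 := by
      rw [show (16 : ℝ) = 2 ^ 4 by norm_num, Real.log_pow]; norm_num
    have h6 : 16 * Real.log 2 ≤ Real.log x := by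
      have h7 : Real.log ((2 : ℝ) ^ 16) ≤ Real.log x := Real.log_le_log (by norm_num) (by norm_num; linarith)
      rw [Real.log_pow] at h7
      exact_mod_cast h7
    linarith
  have hP : x / 16 ≤ P := by
    by_contra hcon
    push Not at hcon
    have h5 : P ≤ ⌊x / 16⌋₊ := Nat.le_floor hcon.le
    have h6 : (Nat.primeCounting P : ℝ) ≤ Nat.primeCounting ⌊x / 16⌋₊ := by
      exact_mod_cast Nat.monotone_primeCounting h5
    have h7 : (m : ℝ) ≤ 4 * (Nat.primeCounting P : ℝ) := by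
      rw [hpi]
      exact_mod_cast hmt.le
    have h8 : (Real.log 4 + 1 / 10) * (x / 16) / Real.log (x / 16) ≤ 1 / 8 * x / Real.log x := by
      rw [div_le_div_iff₀ (by linarith) (by linarith)]
      have h9 : (Real.log 4 + 1 / 10) * (x / 16) ≤ 3 / 2 * (x / 16) := by
        refine mul_le_mul_of_nonneg_right ?_ (by linarith)
        linarith
      have h10 : 1 / 8 * x * (3 / 4 * Real.log x) ≤ 1 / 8 * x * Real.log (x / 16) :=
        mul_le_mul_of_nonneg_left hlog16 (by linarith)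
      have h11 : (Real.log 4 + 1 / 10) * (x / 16) * Real.log x ≤ 3 / 2 * (x / 16) * Real.log x :=
        mul_le_mul_of_nonneg_right h9 (by linarith)
      linarith
    have h12 : 3 / 5 * x / Real.log x ≤ 4 * (1 / 8 * x / Real.log x) := by
      refine hlow.trans ?_
      rw [← hm]
      linarith
    have h13 : 0 < x / Real.log x := div_pos hx0 (by linarith)
    have h14 : 3 / 5 * x / Real.log x = 3 / 5 * (x / Real.log x) := by ring
    have h15 : 4 * (1 / 8 * x / Real.log x) = 1 / 2 * (x / Real.log x) := by ring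
    rw [h14, h15] at h12
    linarith
  -- the final count
  have hfl : ⌊x / 40⌋₊ ≤ P / 2 := by
    have h5 : (⌊x / 40⌋₊ : ℝ) ≤ x / 40 := Nat.floor_le (by linarith)
    have h6 : (⌊x / 40⌋₊ : ℝ) * 2 ≤ P := by linarith
    have h7 : ⌊x / 40⌋₊ * 2 ≤ P := by exact_mod_cast h6
    omega
  have h5 : (Nat.primeCounting ⌊x / 40⌋₊ : ℝ) ≤ ({n : ℕ | 2 < n ∧ n ≤ N ∧ Good n}.ncard : ℝ) := by
    exact_mod_cast (Nat.monotone_primeCounting hfl).trans hcount
  refine le_trans ?_ h5
  refine le_trans ?_ (Chebyshev.pi_ge' (x := x / 40) (by linarith))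
  have hl40 : 0 < Real.log (x / 40) := Real.log_pos (by linarith)
  have hl40' : Real.log (x / 40) ≤ Real.log x := Real.log_le_log (by linarith) (by linarith)
  rw [div_le_div_iff₀ (by linarith) hl40]
  have h6 : Real.log (x / 40 + 2) ≤ x / 1000 :=
    (Real.log_le_log (by linarith) (by linarith)).trans h2
  have h7 : x ≤ 100 * ((x / 40 - 1) * Real.log 2 - Real.log (x / 40 + 2)) := by
    have h8 : (x / 40 - 1) * (69 / 100) ≤ (x / 40 - 1) * Real.log 2 :=
      mul_le_mul_of_nonneg_left (by linarith) (by linarith)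
    linarith
  calc x * Real.log (x / 40) ≤ x * Real.log x := mul_le_mul_of_nonneg_left hl40' hx0.le
    _ ≤ 100 * ((x / 40 - 1) * Real.log 2 - Real.log (x / 40 + 2)) * Real.log x :=
      mul_le_mul_of_nonneg_right h7 (by linarith)
    _ = ((x / 40 - 1) * Real.log 2 - Real.log (x / 40 + 2)) * (100 * Real.log x) := by ring

end Pool.Agent.Results.MP_8f7e98_nt.ManyIntegers
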